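import Pool.Agent.MP_c1dca2_ag.SC5.F
import Pool.Agent.MP_3dd09b_ag.FS.U1

/-!
# Sections and the criterion `F(s) = 1` for curves over the quadratic twists of a hyperelliptic curve

Let `k` be a number field and `f ∈ k[X]` separable of even degree `≥ 4` without a root in `k`. For 100%
of the `c ∈ 𝓞 k` (ordered by the coordinates with respect to any `ℤ`-basis of `𝓞 k`) the following
holds for every curve `U` over `k`, proper or not, whose function field contains `x, y` with `x`
transcendental and `y² = c f(x)`: there is no section of `π₁(U) → Gal(k^alg / k)`, and (therefore)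
a section comes from a rational point of `U` if and only if `F(s) = 1`. The number of the exceptional
`c` with coordinates in `[-N, N]` is smaller than the number of all `c` by a power of `log N`.
-/

set_option autoImplicit false

open NumberField Polynomial

namespace Pool.Agent.MP_3dd09b_ag.Forms.TwistCovers

theorem result (k : Type) [Field k] [NumberField k] (f : k[X]) (hsep : f.Separable)
    (heven : Even f.natDegree) (h4 : 4 ≤ f.natDegree) (hroot : ∀ a : k, f.eval a ≠ 0)
    (ι : Type) [Fintype ι] (b : Module.Basis ι ℤ (𝓞 k)) :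
    ∃ δ A : ℝ, 0 < δ ∧ ∀ N : ℕ, 2 ≤ N →
      (Nat.card {c : ι → ℤ // (∀ i, |c i| ≤ N) ∧
        ¬ FSC.NoSectionU k (C ((∑ i, c i • b i : 𝓞 k) : k) * f)} : ℝ) ≤
      A * (N : ℝ) ^ (Fintype.card ι) / Real.log N ^ δ := by
  obtain ⟨δ, A, hδ, h⟩ := SC5.main f hsep heven h4 hroot b
  refine ⟨δ, A, hδ, fun N hN => le_trans ?_ (h N hN)⟩
  have hbox : {c : ι → ℤ | ∀ i, |c i| ≤ (N : ℤ)}.Finite := by
    classical
    refine (Fintype.piFinset fun _ : ι => Finset.Icc (-(N : ℤ)) N).finite_toSet.subset ?_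
    intro c hc
    rw [Finset.mem_coe, Fintype.mem_piFinset]
    intro i
    rw [Finset.mem_Icc]
    exact abs_le.1 (hc i)
  have hfin : {c : ι → ℤ | (∀ i, |c i| ≤ (N : ℤ)) ∧
      ¬ SCJ.NoSection k (C ((∑ i, c i • b i : 𝓞 k) : k) * f)}.Finite :=
    hbox.subset fun c hc => hc.1
  have hle : Nat.card {c : ι → ℤ // (∀ i, |c i| ≤ (N : ℤ)) ∧
      ¬ FSC.NoSectionU k (C ((∑ i, c i • b i : 𝓞 k) : k) * f)} ≤
      Nat.card {c : ι → ℤ // (∀ i, |c i| ≤ (N : ℤ)) ∧
        ¬ SCJ.NoSection k (C ((∑ i, c i • b i : 𝓞 k) : k) * f)} :=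
    Nat.card_mono hfin fun c hc => ⟨hc.1, fun hno => hc.2 (FSC.noSectionU _ hno)⟩
  exact_mod_cast hle

end Pool.Agent.MP_3dd09b_ag.Forms.TwistCovers
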